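import Mathlib

/-!
# Isotypic algebras generated by one element need not be isomorphic

We construct two algebras in the variety of all algebras with countably many unary operations and one
ternary operation.  Each is generated by one element, they are isotypic (they realise the same types of
finite tuples), and they are not isomorphic.

Atoms are pairs `(w, i)` of a word `w` of natural numbers and a natural number `i`; the basic atoms are
`y i = ([], i)` and the operation `u n` puts the letter `n` in front of the word.  Streams are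
sequences `s` of atoms such that `s n = y (n + c)` for all large `n`, where `c` is an integer whose
parity `p` is fixed; `H p` is the set of atoms and streams of parity `p`.  The operations `h0`, `h1` and
`t` give the first two entries of a stream and the stream without them, and `cons x z s` is the stream
which has two further entries `x`, `z` in front.

An isomorphism from `H 0` to `H 1` permutes the basic atoms (they are not in the images of the
operations `u n`), and this permutation is `n ↦ n + c` for large `n` with an odd `c`, which is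
impossible.  On the other hand, the map `φ` which replaces `y i` by `y (i + 1)` everywhere is an
embedding `H p → H (p + 1)`.  It is elementary: if only finitely many of the operations `u n` are
considered then there are infinitely many atoms beside the `y i` which generate freely, so given a
finite tuple one can change `φ` outside of the tuple to an isomorphism of the reducts.
-/

set_option autoImplicit false

open FirstOrder FirstOrder.Language

namespace Pool.Agent.Results.MP_c850b7_lc.IsotypicNotIsoH75

/-- The tuples `a` of `A` and `b` of `B` have the same type. -/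
def SameType (L : FirstOrder.Language.{0, 0}) {A B : Type} [L.Structure A] [L.Structure B]
    {m : ℕ} (a : Fin m → A) (b : Fin m → B) : Prop :=
  ∀ φ : L.Formula (Fin m), φ.Realize a ↔ φ.Realize b

/-- `A` and `B` are isotypic: they realise the same types of finite tuples. -/
def Isotypic (L : FirstOrder.Language.{0, 0}) (A B : Type) [L.Structure A] [L.Structure B] :
    Prop :=
  ∀ m : ℕ, (∀ a : Fin m → A, ∃ b : Fin m → B, SameType L a b) ∧
    (∀ b : Fin m → B, ∃ a : Fin m → A, SameType L a b)

/-- The element `a` generates the algebra `A`. -/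
def Generates (L : FirstOrder.Language.{0, 0}) {A : Type} [L.Structure A] (a : A) : Prop :=
  Substructure.closure L ({a} : Set A) = ⊤

/-! ### The algebras -/

/-- The operations. -/
inductive Fn : ℕ → Type
  | u (n : ℕ) : Fn 1
  | h0 : Fn 1
  | h1 : Fn 1
  | t : Fn 1
  | cons : Fn 3

/-- The signature. -/
def LS : FirstOrder.Language.{0, 0} := ⟨Fn, fun _ => Empty⟩

/-- Atoms. -/
abbrev Atom : Type := List ℕ × ℕ

/-- Streams of parity `p`: sequences `s` of atoms such that for some `m`, `k` with `m + k = p`
modulo `2` we have `s (n + m) = y (n + k)` for all `n`. -/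
@[ext] structure Str (p : ZMod 2) : Type where
  /-- the sequence -/
  seq : ℕ → Atom
  /-- the entries from some point on -/
  ev : ∃ m k : ℕ, ((m + k : ℕ) : ZMod 2) = p ∧ ∀ n, seq (n + m) = ([], n + k)

/-- The domain of the algebra: atoms and streams. -/
inductive H (p : ZMod 2) : Type
  | atom (x : Atom) : H p
  | stream (s : Str p) : H p

variable {p q : ZMod 2}

/-- The stream without its first two entries. -/
def Str.tail (s : Str p) : Str p := ⟨fun n => s.1 (n + 2), by
  obtain ⟨m, k, h, hs⟩ := s.2
  refine ⟨m, k + 2, ?_, fun n => ?_⟩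
  · rw [← h]
    push_cast
    have : (2 : ZMod 2) = 0 := rfl
    rw [this, add_zero]
  · have := hs (n + 2)
    rw [show n + m + 2 = n + 2 + m by ring, this, show n + 2 + k = n + (k + 2) by ring]⟩

/-- The sequence with the first entries `x`, `z`, followed by `s`. -/
def consFun (x z : Atom) (s : ℕ → Atom) : ℕ → Atom
  | 0 => x
  | 1 => z
  | n + 2 => s n

/-- The stream with the first entries `x`, `z`, followed by `s`. -/
def Str.cons (x z : Atom) (s : Str p) : Str p := ⟨consFun x z s.1, by
  obtain ⟨m, k, h, hs⟩ := s.2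
  refine ⟨m + 2, k, ?_, fun n => ?_⟩
  · rw [← h]
    push_cast
    have : (2 : ZMod 2) = 0 := rfl
    rw [this, add_zero]
  · rw [show n + (m + 2) = (n + m) + 2 by ring]
    exact hs n⟩

/-- The operation `u n`. -/
def opu (n : ℕ) : H p → H p
  | H.atom x => H.atom (n :: x.1, x.2)
  | H.stream s => H.stream s

/-- The operation `h0`. -/
def oph0 : H p → H p
  | H.atom x => H.atom x
  | H.stream s => H.atom (s.1 0)

/-- The operation `h1`. -/
def oph1 : H p → H p
  | H.atom x => H.atom x
  | H.stream s => H.atom (s.1 1)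

/-- The operation `t`. -/
def opt : H p → H p
  | H.atom x => H.atom x
  | H.stream s => H.stream s.tail

/-- The operation `cons`. -/
def opcons : H p → H p → H p → H p
  | H.atom x, H.atom z, H.stream s => H.stream (s.cons x z)
  | _, _, y => y

/-- The algebra `H p`. -/
instance instH (p : ZMod 2) : LS.Structure (H p) where
  funMap := fun {k} (f : Fn k) => match k, f with
    | _, Fn.u n => fun x => opu n (x 0)
    | _, Fn.h0 => fun x => oph0 (x 0)
    | _, Fn.h1 => fun x => oph1 (x 0)
    | _, Fn.t => fun x => opt (x 0)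
    | _, Fn.cons => fun x => opcons (x 0) (x 1) (x 2)
  RelMap := fun {_} r => Empty.elim r

/-! ### Isomorphisms of reducts -/

/-- Isomorphisms of the reducts in which only the operations `u n` with `n < N` are considered. -/
structure NIso (N : ℕ) (Φ : H p ≃ H q) : Prop where
  u : ∀ n < N, ∀ x, Φ (opu n x) = opu n (Φ x)
  h0 : ∀ x, Φ (oph0 x) = oph0 (Φ x)
  h1 : ∀ x, Φ (oph1 x) = oph1 (Φ x)
  t : ∀ x, Φ (opt x) = opt (Φ x)
  cons : ∀ x y z, Φ (opcons x y z) = opcons (Φ x) (Φ y) (Φ z)

theorem niso_fun {k : ℕ} (f : LS.Functions k) : ∃ N0 : ℕ, ∀ N, N0 ≤ N →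
    ∀ Φ : H p ≃ H q, NIso N Φ → ∀ x : Fin k → H p,
      Structure.funMap f (Φ ∘ x) = Φ (Structure.funMap f x) := by
  cases f with
  | u n => exact ⟨n + 1, fun N hN Φ hΦ x => (hΦ.u n (by omega) (x 0)).symm⟩
  | h0 => exact ⟨0, fun N hN Φ hΦ x => (hΦ.h0 (x 0)).symm⟩
  | h1 => exact ⟨0, fun N hN Φ hΦ x => (hΦ.h1 (x 0)).symm⟩
  | t => exact ⟨0, fun N hN Φ hΦ x => (hΦ.t (x 0)).symm⟩
  | cons => exact ⟨0, fun N hN Φ hΦ x => (hΦ.cons (x 0) (x 1) (x 2)).symm⟩

theorem niso_term {α : Type} (t : LS.Term α) : ∃ N0 : ℕ, ∀ N, N0 ≤ N →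
    ∀ Φ : H p ≃ H q, NIso N Φ → ∀ v : α → H p, t.realize (Φ ∘ v) = Φ (t.realize v) := by
  induction t with
  | var i => exact ⟨0, fun N _ Φ _ v => rfl⟩
  | func g ts ih =>
    rename_i l
    choose B hB using ih
    obtain ⟨N1, hN1⟩ := niso_fun (p := p) (q := q) g
    refine ⟨N1 + ∑ i, B i, fun N hN Φ hΦ v => ?_⟩
    rw [Term.realize_func, Term.realize_func, ← hN1 N (by omega) Φ hΦ]
    congr 1
    funext i
    rw [Function.comp_apply]
    apply hB _ _ _ _ hΦ
    have : B i ≤ ∑ i, B i := Finset.single_le_sum (fun _ _ => Nat.zero_le _) (Finset.mem_univ i)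
    omega

theorem niso_formula {α : Type} {n : ℕ} (φ : LS.BoundedFormula α n) : ∃ N0 : ℕ, ∀ N, N0 ≤ N →
    ∀ Φ : H p ≃ H q, NIso N Φ → ∀ (v : α → H p) (xs : Fin n → H p),
      (φ.Realize (Φ ∘ v) (Φ ∘ xs) ↔ φ.Realize v xs) := by
  induction φ with
  | falsum => exact ⟨0, fun N _ Φ _ v xs => Iff.rfl⟩
  | equal t₁ t₂ =>
    obtain ⟨N1, h1⟩ := niso_term (p := p) (q := q) t₁
    obtain ⟨N2, h2⟩ := niso_term (p := p) (q := q) t₂
    refine ⟨max N1 N2, fun N hN Φ hΦ v xs => ?_⟩
    have e : (Sum.elim (Φ ∘ v) (Φ ∘ xs)) = Φ ∘ (Sum.elim v xs) := by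
      funext i
      cases i <;> rfl
    show t₁.realize (Sum.elim (Φ ∘ v) (Φ ∘ xs)) = t₂.realize (Sum.elim (Φ ∘ v) (Φ ∘ xs)) ↔
      t₁.realize (Sum.elim v xs) = t₂.realize (Sum.elim v xs)
    rw [e, h1 N (le_trans (le_max_left _ _) hN) Φ hΦ, h2 N (le_trans (le_max_right _ _) hN) Φ hΦ]
    exact Φ.injective.eq_iff
  | rel R _ => exact Empty.elim R
  | imp f₁ f₂ ih₁ ih₂ =>
    obtain ⟨N1, h1⟩ := ih₁
    obtain ⟨N2, h2⟩ := ih₂
    refine ⟨max N1 N2, fun N hN Φ hΦ v xs => ?_⟩
    rw [BoundedFormula.realize_imp, BoundedFormula.realize_imp,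
      h1 N (le_trans (le_max_left _ _) hN) Φ hΦ, h2 N (le_trans (le_max_right _ _) hN) Φ hΦ]
  | all f ih =>
    obtain ⟨N1, h1⟩ := ih
    refine ⟨N1, fun N hN Φ hΦ v xs => ?_⟩
    rw [BoundedFormula.realize_all, BoundedFormula.realize_all]
    have e : ∀ x : H p, Fin.snoc (Φ ∘ xs) (Φ x) = Φ ∘ (Fin.snoc xs x : Fin _ → H p) := by
      intro x
      rw [Fin.comp_snoc]
    constructor
    · intro h x
      have := h (Φ x)
      rw [e x] at this
      exact (h1 N hN Φ hΦ v _).1 this
    · intro h y
      obtain ⟨x, rfl⟩ := Φ.surjective y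
      rw [e x]
      exact (h1 N hN Φ hΦ v _).2 (h x)

/-! ### The embedding `φ` and its modifications -/

/-- The map `φ` on atoms. -/
def shA (x : Atom) : Atom := (x.1, x.2 + 1)

/-- Atoms `(w, i)` such that `w` has a first letter and it is at least `N`. -/
@[ext] structure Dd (N : ℕ) : Type where
  /-- the atom -/
  val : Atom
  /-- the condition -/
  prop : ∃ n w i, N ≤ n ∧ val = (n :: w, i)

instance (N : ℕ) : Infinite (Dd N) :=
  Infinite.of_injective (fun i : ℕ => (⟨([N], i), N, [], i, le_rfl, rfl⟩ : Dd N)) (by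
    intro i j h
    have := congrArg (fun x : Dd N => x.1.2) h
    exact this)

instance (N : ℕ) : Countable (Dd N) :=
  Function.Injective.countable (f := Dd.val) fun _ _ h => Dd.ext h

/-- `φ` on `Dd N`. -/
def shD {N : ℕ} (d : Dd N) : Dd N := ⟨shA d.1, by
  obtain ⟨n, w, i, hn, h⟩ := d.2
  exact ⟨n, w, i + 1, hn, by rw [h]; rfl⟩⟩

theorem shD_inj {N : ℕ} : Function.Injective (shD (N := N)) := by
  intro x y h
  have h1 := congrArg (fun d : Dd N => d.1.1) h
  have h2 := congrArg (fun d : Dd N => d.1.2) h
  have h3 : x.1.1 = y.1.1 := h1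
  have h4 : x.1.2 + 1 = y.1.2 + 1 := h2
  apply Dd.ext
  apply Prod.ext h3
  omega

/-- The bijections of `Dd N` and `Dd N` with an additional element which we use. -/
theorem exists_theta {N : ℕ} (F : Set (Dd N)) (hF : F.Finite) :
    ∃ e : Dd N ≃ Option (Dd N), ∀ d ∈ F, e d = some (shD d) := by
  obtain ⟨e0⟩ : Nonempty (Dd N ≃ Option (Dd N)) := by
    have : Infinite (Option (Dd N)) := inferInstance
    exact nonempty_equiv_of_countable
  obtain ⟨g, hg⟩ := Cardinal.extend_function_of_lt (s := F)
    (⟨fun d : F => some (shD d.1), fun x y h => by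
      have := Option.some_injective _ h
      exact Subtype.ext (shD_inj this)⟩ : F ↪ Option (Dd N))
    (lt_of_lt_of_le (Cardinal.lt_aleph0_iff_finite.2 hF) (Cardinal.aleph0_le_mk (Dd N))) ⟨e0⟩
  exact ⟨g, fun d hd => hg ⟨d, hd⟩⟩

/-- The modified map on atoms. -/
def thA (N : ℕ) (e : Dd N ≃ Option (Dd N)) : List ℕ → ℕ → Atom
  | [], i => ([], i + 1)
  | n :: w, i => if h : n < N then (n :: (thA N e w i).1, (thA N e w i).2) else
      match e ⟨(n :: w, i), n, w, i, not_lt.1 h, rfl⟩ with
      | none => ([], 0)
      | some d => d.1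

/-- Its inverse. -/
def thB (N : ℕ) (e : Dd N ≃ Option (Dd N)) : List ℕ → ℕ → Atom
  | [], 0 => (e.symm none).1
  | [], i + 1 => ([], i)
  | n :: w, i => if h : n < N then (n :: (thB N e w i).1, (thB N e w i).2) else
      (e.symm (some ⟨(n :: w, i), n, w, i, not_lt.1 h, rfl⟩)).1

theorem thB_d {N : ℕ} (e : Dd N ≃ Option (Dd N)) (d : Dd N) :
    thB N e d.1.1 d.1.2 = (e.symm (some d)).1 := by
  obtain ⟨⟨w, i⟩, n, w', i', hn, h⟩ := d
  obtain ⟨rfl, rfl⟩ := Prod.mk.inj h
  show thB N e (n :: w') i = _
  rw [thB, dif_neg (not_lt.2 hn)]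

theorem thA_d {N : ℕ} (e : Dd N ≃ Option (Dd N)) (d : Dd N) :
    thA N e d.1.1 d.1.2 = match e d with
      | none => ([], 0)
      | some d' => d'.1 := by
  obtain ⟨⟨w, i⟩, n, w', i', hn, h⟩ := d
  obtain ⟨rfl, rfl⟩ := Prod.mk.inj h
  show thA N e (n :: w') i = _
  rw [thA, dif_neg (not_lt.2 hn)]

theorem thB_thA {N : ℕ} (e : Dd N ≃ Option (Dd N)) (w : List ℕ) (i : ℕ) :
    thB N e (thA N e w i).1 (thA N e w i).2 = (w, i) := by
  induction w with
  | nil => rfl
  | cons n w ih =>
    by_cases h : n < N
    · rw [thA, dif_pos h]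
      show thB N e (n :: (thA N e w i).1) (thA N e w i).2 = _
      rw [thB, dif_pos h, ih]
    · have e1 := thA_d e ⟨(n :: w, i), n, w, i, not_lt.1 h, rfl⟩
      simp only at e1
      rw [e1]
      cases h2 : e ⟨(n :: w, i), n, w, i, not_lt.1 h, rfl⟩ with
      | none =>
        show thB N e [] 0 = _
        rw [thB, ← h2, Equiv.symm_apply_apply]
      | some d' =>
        show thB N e d'.1.1 d'.1.2 = _
        rw [thB_d, ← h2, Equiv.symm_apply_apply]

theorem thA_thB {N : ℕ} (e : Dd N ≃ Option (Dd N)) (w : List ℕ) (i : ℕ) :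
    thA N e (thB N e w i).1 (thB N e w i).2 = (w, i) := by
  induction w with
  | nil =>
    cases i with
    | zero =>
      show thA N e (e.symm none).1.1 (e.symm none).1.2 = _
      rw [thA_d, Equiv.apply_symm_apply]
    | succ i => rfl
  | cons n w ih =>
    by_cases h : n < N
    · rw [thB, dif_pos h]
      show thA N e (n :: (thB N e w i).1) (thB N e w i).2 = _
      rw [thA, dif_pos h, ih]
    · have e1 := thB_d e ⟨(n :: w, i), n, w, i, not_lt.1 h, rfl⟩
      simp only at e1
      rw [e1, thA_d, Equiv.apply_symm_apply]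

/-- The map `φ` on streams. -/
def shS (hq : q = p + 1) (s : Str p) : Str q := ⟨fun n => shA (s.1 n), by
  obtain ⟨m, k, h, hs⟩ := s.2
  refine ⟨m, k + 1, ?_, fun n => ?_⟩
  · rw [hq, ← h]
    push_cast
    ring
  · rw [hs]
    rfl⟩

/-- The map `φ`. -/
def sh (hq : q = p + 1) : H p → H q
  | H.atom x => H.atom (shA x)
  | H.stream s => H.stream (shS hq s)

/-- The modified map on streams. -/
def thS (hq : q = p + 1) {N : ℕ} (e : Dd N ≃ Option (Dd N)) (s : Str p) : Str q :=
  ⟨fun n => thA N e (s.1 n).1 (s.1 n).2, by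
    obtain ⟨m, k, h, hs⟩ := s.2
    refine ⟨m, k + 1, ?_, fun n => ?_⟩
    · rw [hq, ← h]
      push_cast
      ring
    · rw [hs]
      rfl⟩

/-- Its inverse. -/
def thT (hq : q = p + 1) {N : ℕ} (e : Dd N ≃ Option (Dd N)) (s : Str q) : Str p :=
  ⟨fun n => thB N e (s.1 n).1 (s.1 n).2, by
    obtain ⟨m, k, h, hs⟩ := s.2
    refine ⟨m + 1, k, ?_, fun n => ?_⟩
    · have h2 : ((m + 1 + k : ℕ) : ZMod 2) = p + 2 := by
        have : ((m + 1 + k : ℕ) : ZMod 2) = ((m + k : ℕ) : ZMod 2) + 1 := by
          push_cast
          ring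
        rw [this, h, hq]
        ring
      rw [h2]
      have : (2 : ZMod 2) = 0 := rfl
      rw [this, add_zero]
    · have := hs (n + 1)
      rw [show n + 1 + m = n + (m + 1) by ring] at this
      rw [this]
      show thB N e [] (n + 1 + k) = _
      rw [show n + 1 + k = (n + k) + 1 by ring]
      rfl⟩

/-- The modified map, as a bijection. -/
def th (hq : q = p + 1) {N : ℕ} (e : Dd N ≃ Option (Dd N)) : H p ≃ H q where
  toFun x := match x with
    | H.atom x => H.atom (thA N e x.1 x.2)
    | H.stream s => H.stream (thS hq e s)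
  invFun x := match x with
    | H.atom x => H.atom (thB N e x.1 x.2)
    | H.stream s => H.stream (thT hq e s)
  left_inv x := by
    cases x with
    | atom x => exact congrArg H.atom (thB_thA e x.1 x.2)
    | stream s =>
      refine congrArg H.stream (Str.ext (funext fun n => ?_))
      exact thB_thA e (s.1 n).1 (s.1 n).2
  right_inv x := by
    cases x with
    | atom x => exact congrArg H.atom (thA_thB e x.1 x.2)
    | stream s =>
      refine congrArg H.stream (Str.ext (funext fun n => ?_))
      exact thA_thB e (s.1 n).1 (s.1 n).2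

theorem th_niso (hq : q = p + 1) {N : ℕ} (e : Dd N ≃ Option (Dd N)) : NIso N (th hq e) where
  u n hn x := by
    cases x with
    | atom x =>
      refine congrArg H.atom ?_
      show thA N e (n :: x.1) x.2 = _
      rw [thA, dif_pos hn]
    | stream s => rfl
  h0 x := by cases x <;> rfl
  h1 x := by cases x <;> rfl
  t x := by cases x <;> rfl
  cons x y z := by
    cases x with
    | stream s => rfl
    | atom x =>
      cases y with
      | stream s => rfl
      | atom y =>
        cases z with
        | atom z => rfl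
        | stream s =>
          refine congrArg H.stream (Str.ext (funext fun n => ?_))
          match n with
          | 0 => rfl
          | 1 => rfl
          | n + 2 => rfl

/-- The element of `Dd N` on which the value of the modified map at an atom depends, if any. -/
def base (N : ℕ) : List ℕ → ℕ → Option (Dd N)
  | [], _ => none
  | n :: w, i => if h : n < N then base N w i else some ⟨(n :: w, i), n, w, i, not_lt.1 h, rfl⟩

theorem thA_eq {N : ℕ} (e : Dd N ≃ Option (Dd N)) (w : List ℕ) (i : ℕ)
    (h : ∀ d, base N w i = some d → e d = some (shD d)) : thA N e w i = shA (w, i) := by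
  induction w with
  | nil => rfl
  | cons n w ih =>
    by_cases hn : n < N
    · rw [base, dif_pos hn] at h
      rw [thA, dif_pos hn, ih h]
      rfl
    · rw [base, dif_neg hn] at h
      rw [thA, dif_neg hn, h _ rfl]
      rfl

/-- The elements of `Dd N` on which the value of the modified map at `x` depends. -/
def supp (N : ℕ) : H p → Set (Dd N)
  | H.atom x => {d | base N x.1 x.2 = some d}
  | H.stream s => {d | ∃ n, base N (s.1 n).1 (s.1 n).2 = some d}

theorem supp_finite (N : ℕ) (x : H p) : (supp N x).Finite := by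
  cases x with
  | atom x =>
    refine Set.Subsingleton.finite ?_
    intro d hd d' hd'
    have h1 : base N x.1 x.2 = some d := hd
    have h2 : base N x.1 x.2 = some d' := hd'
    rw [h1] at h2
    exact Option.some_injective _ h2
  | stream s =>
    obtain ⟨m, k, -, hs⟩ := s.2
    have h1 : supp N (H.stream s : H p) ⊆
        ⋃ n ∈ Finset.range m, {d | base N (s.1 n).1 (s.1 n).2 = some d} := by
      rintro d ⟨n, hn⟩
      by_cases hnm : n < m
      · exact Set.mem_biUnion (Finset.mem_coe.2 (Finset.mem_range.2 hnm)) hn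
      · obtain ⟨j, rfl⟩ := Nat.exists_eq_add_of_le (not_lt.1 hnm)
        rw [add_comm m j, hs] at hn
        exact absurd hn (by simp [base])
    refine Set.Finite.subset ?_ h1
    refine Set.Finite.biUnion (Finset.finite_toSet _) fun n _ => ?_
    refine Set.Subsingleton.finite ?_
    intro d hd d' hd'
    have h1 : base N (s.1 n).1 (s.1 n).2 = some d := hd
    have h2 : base N (s.1 n).1 (s.1 n).2 = some d' := hd'
    rw [h1] at h2
    exact Option.some_injective _ h2

theorem th_eq (hq : q = p + 1) {N : ℕ} (e : Dd N ≃ Option (Dd N)) (x : H p)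
    (h : ∀ d ∈ supp N x, e d = some (shD d)) : th hq e x = sh hq x := by
  cases x with
  | atom x => exact congrArg H.atom (thA_eq e x.1 x.2 fun d hd => h d hd)
  | stream s =>
    refine congrArg H.stream (Str.ext (funext fun n => ?_))
    exact thA_eq e _ _ fun d hd => h d ⟨n, hd⟩

/-- The map `φ` preserves types. -/
theorem sameType_sh (hq : q = p + 1) {m : ℕ} (v : Fin m → H p) : SameType LS v (sh hq ∘ v) := by
  intro φ
  obtain ⟨N, hN⟩ := niso_formula (p := p) (q := q) φ
  have hfin : (⋃ i, supp N (v i)).Finite := Set.finite_iUnion fun i => supp_finite N (v i)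
  obtain ⟨e, he⟩ := exists_theta _ hfin
  have h1 : sh hq ∘ v = th hq e ∘ v := by
    funext i
    exact (th_eq hq e (v i) fun d hd => he d (Set.mem_iUnion.2 ⟨i, hd⟩)).symm
  rw [h1]
  have h2 := hN N le_rfl (th hq e) (th_niso hq e) v default
  unfold Formula.Realize
  rw [← h2]
  have h3 : (th hq e ∘ (default : Fin 0 → H p)) = default := Subsingleton.elim _ _
  rw [h3]

theorem isotypic : Isotypic LS (H 0) (H 1) := by
  intro m
  constructor
  · intro a
    exact ⟨_, sameType_sh (q := 1) (p := 0) rfl a⟩
  · intro b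
    have h := sameType_sh (q := 0) (p := 1) rfl b
    exact ⟨_, fun φ => (h φ).symm⟩

/-! ### Generators -/

/-- The stream `y k, y (k + 1), …`. -/
def yS (k : ℕ) (hk : (k : ZMod 2) = p) : Str p := ⟨fun n => ([], n + k), 0, k, by rw [zero_add]; exact hk, fun _ => rfl⟩

theorem mem_closure_aux (S : LS.Substructure (H p)) (a : ℕ) (ha : (a : ZMod 2) = p)
    (h : (H.stream (yS a ha) : H p) ∈ S) (h' : ∀ i < a, (H.atom ([], i) : H p) ∈ S) : S = ⊤ := by
  have hu : ∀ n x, x ∈ S → opu n x ∈ S := fun n x hx =>
    S.fun_mem (Fn.u n : LS.Functions 1) (fun _ => x) fun _ => hx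
  have hh0 : ∀ x, x ∈ S → oph0 x ∈ S := fun x hx =>
    S.fun_mem (Fn.h0 : LS.Functions 1) (fun _ => x) fun _ => hx
  have hh1 : ∀ x, x ∈ S → oph1 x ∈ S := fun x hx =>
    S.fun_mem (Fn.h1 : LS.Functions 1) (fun _ => x) fun _ => hx
  have ht : ∀ x, x ∈ S → opt x ∈ S := fun x hx =>
    S.fun_mem (Fn.t : LS.Functions 1) (fun _ => x) fun _ => hx
  have hcons : ∀ x y z, x ∈ S → y ∈ S → z ∈ S → opcons x y z ∈ S := by
    intro x y z hx hy hz
    refine S.fun_mem (Fn.cons : LS.Functions 3) ![x, y, z] fun i => ?_
    fin_cases i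
    · exact hx
    · exact hy
    · exact hz
  -- the streams `y k, y (k + 1), …`
  have hs : ∀ j : ℕ, ∀ hk, (H.stream (yS (a + 2 * j) hk) : H p) ∈ S := by
    intro j
    induction j with
    | zero => intro hk; exact h
    | succ j ih =>
      intro hk
      have hk' : ((a + 2 * j : ℕ) : ZMod 2) = p := by
        rw [← hk]
        push_cast
        have : (2 : ZMod 2) = 0 := rfl
        rw [this]
        ring
      have h1 := ht _ (ih hk')
      have h2 : opt (H.stream (yS (a + 2 * j) hk') : H p) = H.stream (yS (a + 2 * (j + 1)) hk) := by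
        refine congrArg H.stream (Str.ext (funext fun n => ?_))
        show (([] : List ℕ), n + 2 + (a + 2 * j)) = ([], n + (a + 2 * (j + 1)))
        rw [show n + 2 + (a + 2 * j) = n + (a + 2 * (j + 1)) by ring]
      rw [h2] at h1
      exact h1
  have hpar : ∀ j : ℕ, ((a + 2 * j : ℕ) : ZMod 2) = p := by
    intro j
    rw [← ha]
    push_cast
    have : (2 : ZMod 2) = 0 := rfl
    rw [this]
    ring
  have hy : ∀ i, (H.atom ([], i) : H p) ∈ S := by
    intro i
    by_cases hi : i < a
    · exact h' i hi
    · obtain ⟨j, rfl⟩ := Nat.exists_eq_add_of_le (not_lt.1 hi)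
      rcases Nat.even_or_odd' j with ⟨j, rfl | rfl⟩
      · have := hh0 _ (hs j (hpar j))
        have e : oph0 (H.stream (yS (a + 2 * j) (hpar j)) : H p) = H.atom ([], a + 2 * j) := by
          show (H.atom ([], 0 + (a + 2 * j)) : H p) = _
          rw [zero_add]
        rw [e] at this
        exact this
      · have := hh1 _ (hs j (hpar j))
        have e : oph1 (H.stream (yS (a + 2 * j) (hpar j)) : H p) = H.atom ([], a + (2 * j + 1)) := by
          show (H.atom ([], 1 + (a + 2 * j)) : H p) = _
          rw [show 1 + (a + 2 * j) = a + (2 * j + 1) by ring]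
        rw [e] at this
        exact this
  have hatom : ∀ (w : List ℕ) (i : ℕ), (H.atom (w, i) : H p) ∈ S := by
    intro w
    induction w with
    | nil => exact hy
    | cons n w ih =>
      intro i
      exact hu n _ (ih i)
  have hstream : ∀ (m : ℕ) (s : Str p) (k : ℕ), (∀ n, s.1 (n + 2 * m) = ([], n + k)) → a ≤ k →
      (k : ZMod 2) = p → (H.stream s : H p) ∈ S := by
    intro m
    induction m with
    | zero =>
      intro s k hsk hak hk
      obtain ⟨j, rfl⟩ := Nat.exists_eq_add_of_le hak
      have hj : (j : ZMod 2) = 0 := by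
        have h3 : ((a + j : ℕ) : ZMod 2) = (a : ZMod 2) := by rw [hk, ha]
        push_cast at h3
        simpa using h3
      rw [ZMod.natCast_eq_zero_iff] at hj
      obtain ⟨j', rfl⟩ := hj
      have e : s = yS (a + 2 * j') (hpar j') := Str.ext (funext fun n => hsk n)
      rw [e]
      exact hs j' _
    | succ m ih =>
      intro s k hsk hak hk
      have h3 := ih s.tail k (fun n => by
        show s.1 (n + 2 * m + 2) = _
        rw [show n + 2 * m + 2 = n + 2 * (m + 1) by ring]
        exact hsk n) hak hk
      have h4 := hcons _ _ _ (hatom (s.1 0).1 (s.1 0).2) (hatom (s.1 1).1 (s.1 1).2) h3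
      have e : opcons (H.atom ((s.1 0).1, (s.1 0).2) : H p) (H.atom ((s.1 1).1, (s.1 1).2))
          (H.stream s.tail) = H.stream s := by
        refine congrArg H.stream (Str.ext (funext fun n => ?_))
        match n with
        | 0 => rfl
        | 1 => rfl
        | n + 2 => rfl
      rw [e] at h4
      exact h4
  rw [eq_top_iff]
  rintro x -
  cases x with
  | atom x => exact hatom x.1 x.2
  | stream s =>
    obtain ⟨m, k, hmk, hsm⟩ := s.2
    -- make the length of the initial part even and `k` large
    have hk2 : ((m + k + 2 * a : ℕ) : ZMod 2) = p := by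
      rw [← hmk]
      push_cast
      have : (2 : ZMod 2) = 0 := rfl
      rw [this]
      ring
    refine hstream (m + a) s (m + k + 2 * a) (fun n => ?_) (by omega) hk2
    have := hsm (n + m + 2 * a)
    rw [show n + 2 * (m + a) = n + m + 2 * a + m by ring, this,
      show n + m + 2 * a + k = n + (m + k + 2 * a) by ring]

theorem generates0 : Generates LS (A := H 0) (H.stream (yS (p := 0) 0 (by simp))) := by
  unfold Generates
  refine mem_closure_aux _ 0 (by simp) ?_ fun i hi => absurd hi (Nat.not_lt_zero i)
  exact Substructure.subset_closure (Set.mem_singleton _)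

theorem generates1 : Generates LS (A := H 1)
    (H.stream ((yS (p := 1) 1 (by simp)).cons ([], 0) ([], 0))) := by
  unfold Generates
  set a : H 1 := H.stream ((yS (p := 1) 1 (by simp)).cons ([], 0) ([], 0)) with ha
  have hmem : a ∈ Substructure.closure LS ({a} : Set (H 1)) :=
    Substructure.subset_closure (Set.mem_singleton _)
  refine mem_closure_aux _ 1 (by simp) ?_ fun i hi => ?_
  · exact (Substructure.closure LS ({a} : Set (H 1))).fun_mem (Fn.t : LS.Functions 1)
      (fun _ => a) fun _ => hmem
  · obtain rfl : i = 0 := by omega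
    exact (Substructure.closure LS ({a} : Set (H 1))).fun_mem (Fn.h0 : LS.Functions 1)
      (fun _ => a) fun _ => hmem

/-! ### The algebras are not isomorphic -/

theorem not_iso : IsEmpty (H 0 ≃[LS] H 1) := by
  refine ⟨fun Φ => ?_⟩
  have hu : ∀ n x, Φ (opu n x) = opu n (Φ x) := fun n x =>
    Φ.map_fun (Fn.u n : LS.Functions 1) (fun _ => x)
  have hh0 : ∀ x, Φ (oph0 x) = oph0 (Φ x) := fun x =>
    Φ.map_fun (Fn.h0 : LS.Functions 1) (fun _ => x)
  have hh1 : ∀ x, Φ (oph1 x) = oph1 (Φ x) := fun x =>
    Φ.map_fun (Fn.h1 : LS.Functions 1) (fun _ => x)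
  have ht : ∀ x, Φ (opt x) = opt (Φ x) := fun x =>
    Φ.map_fun (Fn.t : LS.Functions 1) (fun _ => x)
  -- streams are not fixed by `t`
  have hne : ∀ {p : ZMod 2} (s : Str p), s.tail ≠ s := by
    intro p s h
    obtain ⟨m, k, -, hs⟩ := s.2
    have h1 := congrArg (fun s : Str p => s.1 (0 + m)) h
    have h2 : s.1 (0 + m + 2) = s.1 (0 + m) := h1
    rw [show 0 + m + 2 = 2 + m by ring, hs, hs] at h2
    simp at h2
  have hatom : ∀ x : Atom, ∃ z : Atom, Φ (H.atom x) = H.atom z := by
    intro x
    cases h : Φ (H.atom x) with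
    | atom z => exact ⟨z, rfl⟩
    | stream s =>
      have h1 := ht (H.atom x)
      have h2 : opt (H.atom x : H 0) = H.atom x := rfl
      rw [h2, h] at h1
      exact absurd (H.stream.inj h1.symm) (hne s)
  have hstream : ∀ s : Str 0, ∃ s' : Str 1, Φ (H.stream s) = H.stream s' := by
    intro s
    cases h : Φ (H.stream s) with
    | stream s' => exact ⟨s', rfl⟩
    | atom z =>
      have h1 := ht (H.stream s)
      rw [h] at h1
      have h2 : opt (H.atom z : H 1) = H.atom z := rfl
      rw [h2, ← h] at h1
      exact absurd (H.stream.inj (Φ.injective h1)) (hne s)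
  choose f hf using hatom
  have finj : Function.Injective f := by
    intro x y h
    have : Φ (H.atom x) = Φ (H.atom y) := by rw [hf, hf, h]
    exact H.atom.inj (Φ.injective this)
  have fsurj : Function.Surjective f := by
    intro z
    obtain ⟨x, hx⟩ := Φ.surjective (H.atom z)
    cases x with
    | atom x =>
      refine ⟨x, ?_⟩
      rw [hf] at hx
      exact H.atom.inj hx
    | stream s =>
      obtain ⟨s', hs'⟩ := hstream s
      rw [hs'] at hx
      cases hx
  have fu : ∀ n w i, f (n :: w, i) = (n :: (f (w, i)).1, (f (w, i)).2) := by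
    intro n w i
    have h1 := hu n (H.atom (w, i))
    rw [hf] at h1
    have h2 : opu n (H.atom (w, i) : H 0) = H.atom (n :: w, i) := rfl
    rw [h2, hf] at h1
    exact H.atom.inj h1
  -- basic atoms are mapped to basic atoms
  have fy : ∀ i, ∃ j, f ([], i) = ([], j) := by
    intro i
    rcases h : f ([], i) with ⟨w, j⟩
    cases w with
    | nil => exact ⟨j, rfl⟩
    | cons n w =>
      obtain ⟨x, hx⟩ := fsurj (w, j)
      have h1 := fu n x.1 x.2
      rw [Prod.mk.eta, hx, ← h] at h1
      have h2 := finj h1
      exact absurd (congrArg Prod.fst h2) (List.cons_ne_nil _ _)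
  choose g hg using fy
  have ginj : Function.Injective g := by
    intro i j h
    have : f ([], i) = f ([], j) := by rw [hg, hg, h]
    exact congrArg Prod.snd (finj this)
  have gsurj : Function.Surjective g := by
    intro j
    obtain ⟨⟨w, i⟩, hx⟩ := fsurj ([], j)
    cases w with
    | nil =>
      refine ⟨i, ?_⟩
      rw [hg] at hx
      exact congrArg Prod.snd hx
    | cons n w =>
      rw [fu] at hx
      exact absurd (congrArg Prod.fst hx) (List.cons_ne_nil _ _)
  -- the image of a stream
  have hentry : ∀ (n : ℕ) (s : Str 0) (s' : Str 1), Φ (H.stream s) = H.stream s' →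
      s'.1 n = f (s.1 n) := by
    intro n
    induction n using Nat.twoStepInduction with
    | zero =>
      intro s s' h
      have h1 := hh0 (H.stream s)
      rw [h] at h1
      have h2 : oph0 (H.stream s : H 0) = H.atom (s.1 0) := rfl
      rw [h2, hf] at h1
      exact (H.atom.inj h1).symm
    | one =>
      intro s s' h
      have h1 := hh1 (H.stream s)
      rw [h] at h1
      have h2 : oph1 (H.stream s : H 0) = H.atom (s.1 1) := rfl
      rw [h2, hf] at h1
      exact (H.atom.inj h1).symm
    | more n ih1 _ =>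
      intro s s' h
      have h1 := ht (H.stream s)
      rw [h] at h1
      exact ih1 s.tail s'.tail h1
  obtain ⟨s', hs'⟩ := hstream (yS 0 (by simp))
  obtain ⟨m, k, hmk, hs⟩ := s'.2
  have key : ∀ n, g (n + m) = n + k := by
    intro n
    have h1 := hentry (n + m) _ _ hs'
    rw [hs] at h1
    have h2 : f ((yS (p := 0) 0 (by simp)).1 (n + m)) = f ([], n + m) := rfl
    rw [h2, hg] at h1
    exact (congrArg Prod.snd h1).symm
  -- `g` maps `{0, …, m - 1}` onto `{0, …, k - 1}`
  have h1 : (Finset.range m).image g = Finset.range k := by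
    ext j
    simp only [Finset.mem_image, Finset.mem_range]
    constructor
    · rintro ⟨i, hi, rfl⟩
      by_contra hc
      obtain ⟨l, hl⟩ := Nat.exists_eq_add_of_le (not_lt.1 hc)
      have h2 := key l
      rw [add_comm l k, ← hl] at h2
      have := ginj h2
      omega
    · intro hj
      obtain ⟨i, rfl⟩ := gsurj j
      refine ⟨i, ?_, rfl⟩
      by_contra hc
      obtain ⟨l, hl⟩ := Nat.exists_eq_add_of_le (not_lt.1 hc)
      have h2 := key l
      rw [add_comm l m, ← hl] at h2
      omega
  have h2 := congrArg Finset.card h1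
  rw [Finset.card_image_of_injective _ ginj, Finset.card_range, Finset.card_range] at h2
  subst h2
  have h3 : ((m + m : ℕ) : ZMod 2) = 0 := by
    rw [← two_mul]
    push_cast
    have : (2 : ZMod 2) = 0 := rfl
    rw [this, zero_mul]
  rw [h3] at hmk
  exact absurd hmk (by decide)

/-- **Isotypic algebras generated by one element need not be isomorphic.**  There are a countable
signature `L` without relation symbols and two algebras `H₁`, `H₂` of this signature (in the variety
of all algebras of the signature), each generated by one element, such that `H₁` and `H₂` are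
isotypic and not isomorphic. -/
theorem result : ∃ (L : FirstOrder.Language.{0, 0}) (_ : Countable (Σ n, L.Functions n))
    (_ : L.IsAlgebraic) (H₁ H₂ : Type) (_ : L.Structure H₁) (_ : L.Structure H₂),
    (∃ a : H₁, Generates L a) ∧ (∃ a : H₂, Generates L a) ∧
      Isotypic L H₁ H₂ ∧ IsEmpty (H₁ ≃[L] H₂) := by
  refine ⟨LS, ?_, fun _ => ⟨fun r => Empty.elim r⟩, H 0, H 1, instH 0, instH 1,
    ⟨_, generates0⟩, ⟨_, generates1⟩, isotypic, not_iso⟩
  let c : (Σ n, LS.Functions n) → ℕ := fun f => match f with
    | ⟨_, Fn.u n⟩ => n + 4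
    | ⟨_, Fn.h0⟩ => 0
    | ⟨_, Fn.h1⟩ => 1
    | ⟨_, Fn.t⟩ => 2
    | ⟨_, Fn.cons⟩ => 3
  refine Function.Injective.countable (f := c) ?_
  rintro ⟨k, f⟩ ⟨k', f'⟩ h
  cases f <;> cases f' <;> simp only [c] at h
  all_goals first | rfl | omega | skip
  obtain rfl := Nat.add_right_cancel h
  rfl

end Pool.Agent.Results.MP_c850b7_lc.IsotypicNotIsoH75
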